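import Pool.Agent.H982.TW12

set_option autoImplicit false

/-!
# Critical self-avoiding walks on the honeycomb lattice which cross a strip: `T * Z T → ∞`

`Z T` is the critical partition function of the self-avoiding walks which cross a strip of height
`T` of the honeycomb lattice from a fixed vertex of its lower boundary (Nienhuis' prediction:
`Z T = T ^ (-1/4 + o(1))`). The bound `Z T ≥ c / T` of Duminil-Copin and Smirnov is not sharp in
order: `T * Z T → ∞`. This follows from a statement about two walks: two independent critical
crossing walks which start from the same vertex, or from any two vertices of the lower boundary,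
avoid each other with a probability which tends to zero as `T → ∞`.

Idea: the walks are cut at their cut lines; the piece before the first cut line above level `H` has
for both walks the law of the corresponding piece of the infinite half-plane walk. The position in
which the first of the two walks is when it enters a high level is spread out, and the mirror image
of a walk has the same law. So, given two pieces up to a high level `H`, the further pieces of the
two walks stay in the order in which the walks reached the level `H` with a probability of at most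
`1/2 + ε`, and they have to stay in this order (planarity) in order to avoid each other. Hence
`P(H') ≤ (1/2 + ε) P(H) + 2 ε` for all `H' ≥ H'(H, ε)`, and `P(H) → 0`. Then the exact identity
`1 / Z (T + 1) - 1 / Z T = κ * prob (T + 1)` of the library gives `1 / Z T = o(T)`.
-/

namespace Pool.Agent.Results.MP_b440f6_pr.BridgeLowerBound

open Filter Topology
open scoped ENNReal

/-- Adjacency in the honeycomb lattice (brick-wall coordinates). -/
def Nbr (p q : ℤ × ℤ) : Prop :=
  (p.2 = q.2 ∧ (p.1 - q.1 = 1 ∨ q.1 - p.1 = 1)) ∨
    (p.1 = q.1 ∧ ((q.2 = p.2 + 1 ∧ Even (p.1 + p.2)) ∨ (p.2 = q.2 + 1 ∧ Even (q.1 + q.2))))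

/-- The self-avoiding trajectories from `a` to `b` in `D`, as lists of vertices. -/
def Traj (D : Set (ℤ × ℤ)) (a b : ℤ × ℤ) : Set (List (ℤ × ℤ)) :=
  {l | l.head? = some a ∧ l.getLast? = some b ∧ l.Nodup ∧ l.IsChain Nbr ∧ ∀ p ∈ l, p ∈ D}

/-- The critical fugacity `1 / μ`. -/
noncomputable def xc : ℝ≥0∞ := ENNReal.ofReal (1 / Real.sqrt (2 + Real.sqrt 2))

/-- the strip with `2 T` levels; the level of `p` is `p.1 - p.2`; the translation by `(1, 1)` maps
the lattice and the strip onto themselves -/
def Strip (T : ℕ) : Set (ℤ × ℤ) := {p | 1 ≤ p.1 - p.2 ∧ p.1 - p.2 ≤ 2 * T}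

/-- the self-avoiding walks which cross the strip, from `(1, 0)` to its highest level -/
def Cross (T : ℕ) : Set (List (ℤ × ℤ)) :=
  {l | ∃ x : ℤ, l ∈ Traj (Strip T) (1, 0) (2 * T + x, x)}

/-- the critical mass of a set of walks -/
noncomputable def mass (S : Set (List (ℤ × ℤ))) : ℝ≥0∞ := ∑' l : S, xc ^ (l.1.length - 1)

/-- the critical partition function of the strip -/
noncomputable def Z (T : ℕ) : ℝ := (mass (Cross T)).toReal

/-- the walk `l` and the translate of the walk `l'` by `(j, j)` have no vertex in common, except for
the first vertex if `j = 0` -/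
def Avoid (j : ℕ) (l l' : List (ℤ × ℤ)) : Prop :=
  ∀ v ∈ l', v + ((j : ℤ), (j : ℤ)) ∈ l → j = 0 ∧ v = (1, 0)

/-- the pairs of crossing walks of which the first one and the translate of the second one by
`(j, j)` avoid each other -/
def Pairs (j T : ℕ) : Set (List (ℤ × ℤ) × List (ℤ × ℤ)) :=
  {p | p.1 ∈ Cross T ∧ p.2 ∈ Cross T ∧ Avoid j p.1 p.2}

/-- the probability that two independent critical crossing walks, from the vertices `(1, 0)` and
`(1, 0) + (j, j)` of the lower boundary, avoid each other -/
noncomputable def prob (j T : ℕ) : ℝ :=
  ((∑' p : Pairs j T, xc ^ (p.1.1.length - 1) * xc ^ (p.1.2.length - 1)) /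
    (mass (Cross T) * mass (Cross T))).toReal

/-- **Theorem.** (1) `0 < mass (Cross T) < ∞` for every `T ≥ 1`, and for every `j`, the probability
that two independent critical crossing walks from the vertices `(1, 0)` and `(1 + j, j)` avoid each
other tends to `0` as `T → ∞`;
(2) `T * Z T → ∞`. -/
theorem result :
    (∀ T : ℕ, 1 ≤ T → 0 < mass (Cross T) ∧ mass (Cross T) < ⊤) ∧
    (∀ j : ℕ, Tendsto (prob j) atTop (𝓝 0)) ∧
    Tendsto (fun T : ℕ => (T : ℝ) * Z T) atTop atTop := by
  refine ⟨fun T hT => ⟨Q294.Ni.mass_gt hT, (Q294.Sl.main_mass hT).2.2.1⟩, fun j => ?_, ?_⟩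
  · exact Pool.Agent.H982.TW.strip_lim j
  · exact Pool.Agent.H982.TW.TZ_lim

end Pool.Agent.Results.MP_b440f6_pr.BridgeLowerBound
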