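import Pool.Agent.H131.V1.Gen

/-!
Self-avoiding walks on the honeycomb lattice (brick-wall coordinates, same description as in the
frozen statement) both of whose end points are visible: a zigzag half-line starting at the end point
avoids the walk. Their number is at most `864 (2n+1)^4 μ^n`, and `c n` is at most a power of `n` times
`μ^n` if and only if the end points are visible with at least polynomial probability in the critical
ensembles of walks in boxes.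
-/

set_option autoImplicit false

namespace Pool.Agent.Results.MP_b440f6_pr.VisibleEndPoints

/-- Adjacency in the honeycomb lattice (brick-wall model), as in the frozen statement. -/
def Nbr (p q : ℤ × ℤ) : Prop :=
  (p.2 = q.2 ∧ (p.1 - q.1 = 1 ∨ q.1 - p.1 = 1)) ∨
    (p.1 = q.1 ∧ ((q.2 = p.2 + 1 ∧ Even (p.1 + p.2)) ∨ (p.2 = q.2 + 1 ∧ Even (q.1 + q.2))))

/-- The set of `n`-step self-avoiding walks from the origin. -/
def walks (n : ℕ) : Set (Fin (n + 1) → ℤ × ℤ) :=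
  {ω | ω 0 = (0, 0) ∧ Function.Injective ω ∧ ∀ i : Fin n, Nbr (ω i.castSucc) (ω i.succ)}

/-- The number of `n`-step self-avoiding walks from the origin. -/
noncomputable def c (n : ℕ) : ℕ := (walks n).ncard

/-- The connective constant. -/
noncomputable def mu : ℝ := Real.sqrt (2 + Real.sqrt 2)

/-- The next vertex on the zigzag half-line from `v` in the direction of the angle `60 k` degrees
(`v ↦ nxt k v` uses alternately the two edge directions `60 k - 30` and `60 k + 30` degrees). -/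
def nxt (k : Fin 6) (v : ℤ × ℤ) : ℤ × ℤ :=
  if Even (v.1 + v.2) then v + ![(1, 0), (0, 1), (0, 1), (-1, 0), (-1, 0), (1, 0)] k
  else v + ![(1, 0), (1, 0), (-1, 0), (-1, 0), (0, -1), (0, -1)] k

/-- The zigzag half-line from `v` in the direction `60 k` degrees (without `v`). -/
def Ray (k : Fin 6) (v : ℤ × ℤ) : Set (ℤ × ℤ) := {w | ∃ j : ℕ, 1 ≤ j ∧ (nxt k)^[j] v = w}

/-- `v` is visible outside `A`: one of the six zigzag half-lines from `v` avoids `A`. -/
def Visible (A : Set (ℤ × ℤ)) (v : ℤ × ℤ) : Prop := ∃ k : Fin 6, ∀ w ∈ A, w ∉ Ray k v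

/-- The `n`-step self-avoiding walks from the origin both of whose end points are visible outside
the walk. -/
def vis (n : ℕ) : Set (Fin (n + 1) → ℤ × ℤ) :=
  {ω | ω ∈ walks n ∧ Visible (Set.range ω) (ω 0) ∧ Visible (Set.range ω) (ω (Fin.last n))}

/-- The probability that both end points of the uniform `n`-step self-avoiding walk are visible. -/
noncomputable def Pvis (n : ℕ) : ℝ := ((vis n).ncard : ℝ) / (c n : ℝ)

/-- The walks in the box `[-L, L]²`. -/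
def inBox (L n : ℕ) : Set (Fin (n + 1) → ℤ × ℤ) :=
  {ω | ∀ i, |(ω i).1| ≤ (L : ℤ) ∧ |(ω i).2| ≤ (L : ℤ)}

/-- The critical partition function (each step has weight `1/μ`) of the walks in the box `[-L, L]²`
which belong to `A n`, `n` the number of steps (`n < (2 L + 1)²` for a self-avoiding walk in the
box). -/
noncomputable def Zbox (A : (n : ℕ) → Set (Fin (n + 1) → ℤ × ℤ)) (L : ℕ) : ℝ :=
  ∑ n ∈ Finset.range ((2 * L + 1) ^ 2), ((A n ∩ inBox L n).ncard : ℝ) / mu ^ n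

/-! ### Proofs -/

open H978R2.Hex

theorem mu_pos : 0 < mu := mu0_pos

theorem nxt_eq : nxt = H131.V1.nxt := by
  funext k v
  obtain ⟨a, b⟩ := v
  unfold nxt
  simp only [Int.even_iff]
  fin_cases k
  · show (if (a + b) % 2 = 0 then ((a, b) : ℤ × ℤ) + (1, 0) else (a, b) + (1, 0)) = (a + 1, b)
    split_ifs <;> simp
  · show (if (a + b) % 2 = 0 then ((a, b) : ℤ × ℤ) + (0, 1) else (a, b) + (1, 0)) =
      if (a + b) % 2 = 0 then (a, b + 1) else (a + 1, b)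
    split_ifs <;> simp
  · show (if (a + b) % 2 = 0 then ((a, b) : ℤ × ℤ) + (0, 1) else (a, b) + (-1, 0)) =
      if (a + b) % 2 = 0 then (a, b + 1) else (a - 1, b)
    split_ifs <;> simp [sub_eq_add_neg]
  · show (if (a + b) % 2 = 0 then ((a, b) : ℤ × ℤ) + (-1, 0) else (a, b) + (-1, 0)) = (a - 1, b)
    split_ifs <;> simp [sub_eq_add_neg]
  · show (if (a + b) % 2 = 0 then ((a, b) : ℤ × ℤ) + (-1, 0) else (a, b) + (0, -1)) =
      if (a + b) % 2 = 0 then (a - 1, b) else (a, b - 1)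
    split_ifs <;> simp [sub_eq_add_neg]
  · show (if (a + b) % 2 = 0 then ((a, b) : ℤ × ℤ) + (1, 0) else (a, b) + (0, -1)) =
      if (a + b) % 2 = 0 then (a + 1, b) else (a, b - 1)
    split_ifs <;> simp [sub_eq_add_neg]

theorem ray_eq (k : Fin 6) (v : ℤ × ℤ) : Ray k v = H131.V1.Ray k v := by
  unfold Ray H131.V1.Ray
  rw [nxt_eq]

theorem adj_of_nbr {p q : ℤ × ℤ} (h : Nbr p q) : Adj p q := by
  rw [adj_iff]
  unfold Nbr at h
  simp only [Int.even_iff] at h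
  omega

/-- the box as a finite set -/
noncomputable def Bx (L : ℕ) : Finset (ℤ × ℤ) := Finset.Icc (-(L : ℤ)) L ×ˢ Finset.Icc (-(L : ℤ)) L

theorem mem_Bx {L : ℕ} {v : ℤ × ℤ} : v ∈ Bx L ↔ |v.1| ≤ (L : ℤ) ∧ |v.2| ≤ (L : ℤ) := by
  unfold Bx
  rw [Finset.mem_product, Finset.mem_Icc, Finset.mem_Icc, abs_le, abs_le]

theorem card_Bx (L : ℕ) : (Bx L).card = (2 * L + 1) ^ 2 := by
  unfold Bx
  rw [Finset.card_product, Int.card_Icc, pow_two]
  congr 1 <;> omega

theorem finite_inBox (L n : ℕ) : (inBox L n).Finite := by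
  have h : (Set.pi Set.univ fun _ : Fin (n + 1) => (Bx L : Set (ℤ × ℤ))).Finite :=
    Set.Finite.pi fun _ => (Bx L).finite_toSet
  refine h.subset fun ω hω i _ => ?_
  exact Finset.mem_coe.mpr (mem_Bx.mpr (hω i))

theorem walks_inBox (n : ℕ) : walks n ⊆ inBox n n := by
  rintro ω ⟨h0, -, h1⟩
  have key : ∀ j : ℕ, ∀ hj : j < n + 1, |(ω ⟨j, hj⟩).1| ≤ (j : ℤ) ∧ |(ω ⟨j, hj⟩).2| ≤ (j : ℤ) := by
    intro j
    induction j with
    | zero =>
      intro hj
      have e : (⟨0, hj⟩ : Fin (n + 1)) = 0 := rfl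
      rw [e, h0]
      simp
    | succ j ih =>
      intro hj
      have hj' : j < n := by omega
      have h2 := h1 ⟨j, hj'⟩
      have h3 := ih (by omega)
      have e1 : (⟨j, hj'⟩ : Fin n).castSucc = ⟨j, by omega⟩ := rfl
      have e2 : (⟨j, hj'⟩ : Fin n).succ = ⟨j + 1, hj⟩ := rfl
      rw [e1, e2] at h2
      unfold Nbr at h2
      simp only [abs_le] at h3 ⊢
      push_cast
      omega
  intro i
  have h2 := key i.1 i.2
  have h3 : (i.1 : ℤ) ≤ n := by
    have := i.2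
    omega
  exact ⟨h2.1.trans h3, h2.2.trans h3⟩

theorem walks_finite (n : ℕ) : (walks n).Finite := (finite_inBox n n).subset (walks_inBox n)

theorem vis_sub (n : ℕ) : vis n ⊆ walks n := fun _ h => h.1

/-- the list of the vertices of a visible walk -/
theorem saw_list {L n : ℕ} {ω : Fin (n + 1) → ℤ × ℤ} (h : ω ∈ vis n ∩ inBox L n) :
    ∃ (y : V) (k k' : Fin 6), H131.V1.Saw (Bx L) (0, 0) y (List.ofFn ω) ∧
      (∀ w ∈ List.ofFn ω, w ∉ H131.V1.Ray k (0, 0)) ∧ ∀ w ∈ List.ofFn ω, w ∉ H131.V1.Ray k' y := by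
  obtain ⟨⟨⟨h0, h1, h2⟩, ⟨k, hk⟩, ⟨k', hk'⟩⟩, h3⟩ := h
  refine ⟨ω (Fin.last n), k, k', ⟨?_, ?_, ?_, ?_, ?_⟩, ?_, ?_⟩
  · rw [List.ofFn_succ, List.head?_cons, h0]
  · rw [List.ofFn_succ_last, List.getLast?_concat]
  · exact List.nodup_ofFn.mpr h1
  · rw [List.isChain_ofFn]
    intro i hi
    exact adj_of_nbr (h2 ⟨i, by omega⟩)
  · intro p hp
    obtain ⟨i, rfl⟩ := List.mem_ofFn.mp hp
    exact mem_Bx.mpr (h3 i)
  · intro w hw
    rw [← ray_eq, ← h0]
    exact hk w (List.mem_ofFn.mp hw)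
  · intro w hw
    rw [← ray_eq]
    exact hk' w (List.mem_ofFn.mp hw)

/-- the critical mass of the visible walks in a box -/
theorem vis_sum (L M : ℕ) : ∑ n ∈ Finset.range M, ((vis n ∩ inBox L n).ncard : ℝ) / mu ^ n ≤
    864 * (2 * (L : ℝ) + 1) ^ 4 := by
  classical
  have hfin : ∀ n, (vis n ∩ inBox L n).Finite := fun n => (finite_inBox L n).subset
    Set.inter_subset_right
  set T : Finset (List V) := (Finset.range M).biUnion
    (fun n => (hfin n).toFinset.image (fun ω => List.ofFn ω)) with hT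
  have h1 := H131.V1.visible_sum (Bx L) (0, 0) T (by
    intro l hl
    rw [hT, Finset.mem_biUnion] at hl
    obtain ⟨n, -, hl⟩ := hl
    obtain ⟨ω, hω, rfl⟩ := Finset.mem_image.mp hl
    exact saw_list ((hfin n).mem_toFinset.mp hω))
  have h2 : ∑ l ∈ T, (mu0⁻¹) ^ (l.length - 1) =
      ∑ n ∈ Finset.range M, ((vis n ∩ inBox L n).ncard : ℝ) / mu ^ n := by
    rw [hT, Finset.sum_biUnion]
    · refine Finset.sum_congr rfl fun n _ => ?_
      rw [Finset.sum_image (fun a _ b _ h => List.ofFn_injective h)]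
      have e : ∀ ω ∈ (hfin n).toFinset, (mu0⁻¹) ^ ((List.ofFn ω).length - 1) = (mu0⁻¹) ^ n := by
        intro ω _
        rw [List.length_ofFn]
        rfl
      rw [Finset.sum_congr rfl e, Finset.sum_const, nsmul_eq_mul,
        Set.ncard_eq_toFinset_card _ (hfin n), inv_pow, div_eq_mul_inv]
      rfl
    · intro n _ m _ hnm
      simp only [Function.onFun]
      rw [Finset.disjoint_left]
      intro l hl hl'
      obtain ⟨ω, -, rfl⟩ := Finset.mem_image.mp hl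
      obtain ⟨ω', -, h⟩ := Finset.mem_image.mp hl'
      apply hnm
      have := congrArg List.length h
      rw [List.length_ofFn, List.length_ofFn] at this
      omega
  rw [h2, card_Bx] at h1
  refine h1.trans (le_of_eq ?_)
  push_cast
  ring

theorem part_one (n : ℕ) : ((vis n).ncard : ℝ) ≤ 864 * (2 * (n : ℝ) + 1) ^ 4 * mu ^ n := by
  have h := vis_sum n (n + 1)
  have hmu := pow_pos mu_pos n
  have e : vis n ∩ inBox n n = vis n :=
    Set.inter_eq_left.mpr ((vis_sub n).trans (walks_inBox n))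
  have h2 : ((vis n ∩ inBox n n).ncard : ℝ) / mu ^ n ≤
      ∑ m ∈ Finset.range (n + 1), ((vis m ∩ inBox n m).ncard : ℝ) / mu ^ m :=
    Finset.single_le_sum (f := fun m => ((vis m ∩ inBox n m).ncard : ℝ) / mu ^ m)
      (fun m _ => div_nonneg (Nat.cast_nonneg _) (pow_pos mu_pos m).le)
      (Finset.mem_range.mpr (Nat.lt_succ_self n))
  rw [e] at h2
  have h3 := h2.trans h
  rwa [div_le_iff₀ hmu] at h3

theorem zero_walk (L : ℕ) : (fun _ => (0, 0) : Fin (0 + 1) → ℤ × ℤ) ∈ vis 0 ∩ inBox L 0 := by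
  have hray : ∀ w ∈ Set.range (fun _ => (0, 0) : Fin (0 + 1) → ℤ × ℤ), w ∉ Ray 0 (0, 0) := by
    rintro w ⟨i, rfl⟩
    rw [ray_eq]
    simp only
    rw [H131.V1.ray_zero]
    simp
  refine ⟨⟨⟨rfl, ?_, ?_⟩, ⟨0, hray⟩, ⟨0, hray⟩⟩, ?_⟩
  · intro i j _
    apply Fin.ext
    omega
  · intro i
    exact i.elim0
  · intro i
    simp

theorem one_le_Zvis (L : ℕ) : 1 ≤ Zbox vis L := by
  have h1 : ((vis 0 ∩ inBox L 0).ncard : ℝ) / mu ^ 0 ≤ Zbox vis L :=
    Finset.single_le_sum (f := fun m => ((vis m ∩ inBox L m).ncard : ℝ) / mu ^ m)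
      (fun m _ => div_nonneg (Nat.cast_nonneg _) (pow_pos mu_pos m).le)
      (Finset.mem_range.mpr (by positivity))
  have hf : (vis 0 ∩ inBox L 0).Finite := (finite_inBox L 0).subset Set.inter_subset_right
  have h2 : 0 < (vis 0 ∩ inBox L 0).ncard := (Set.ncard_pos hf).mpr ⟨_, zero_walk L⟩
  have h3 : (1 : ℝ) ≤ ((vis 0 ∩ inBox L 0).ncard : ℝ) := by exact_mod_cast h2
  rw [pow_zero, div_one] at h1
  exact h3.trans h1

theorem c_le_Zbox (n : ℕ) : (c n : ℝ) / mu ^ n ≤ Zbox walks n := by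
  have e : walks n ∩ inBox n n = walks n := Set.inter_eq_left.mpr (walks_inBox n)
  have h : ((walks n ∩ inBox n n).ncard : ℝ) / mu ^ n ≤ Zbox walks n :=
    Finset.single_le_sum (f := fun m => ((walks m ∩ inBox n m).ncard : ℝ) / mu ^ m)
      (fun m _ => div_nonneg (Nat.cast_nonneg _) (pow_pos mu_pos m).le)
      (Finset.mem_range.mpr (by nlinarith))
  rw [e] at h
  exact h

theorem pow_bound {x : ℝ} (hx : 2 ≤ x) : 2 * x + 1 ≤ x ^ 3 := by
  nlinarith [mul_self_nonneg (x - 2), mul_nonneg (by linarith : (0:ℝ) ≤ x - 2)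
    (by linarith : (0:ℝ) ≤ x)]

theorem part_three_mp (h : ∃ K : ℕ, ∀ n : ℕ, 2 ≤ n → (c n : ℝ) ≤ (n : ℝ) ^ K * mu ^ n) :
    ∃ K : ℕ, ∀ L : ℕ, 2 ≤ L → Zbox walks L ≤ (L : ℝ) ^ K * Zbox vis L := by
  obtain ⟨K, hK⟩ := h
  obtain ⟨a, ha⟩ : ∃ a : ℕ, ∀ n : ℕ, n < 2 → (c n : ℝ) / mu ^ n ≤ 2 ^ a := by
    obtain ⟨a0, h0⟩ := pow_unbounded_of_one_lt ((c 0 : ℝ) / mu ^ 0 + (c 1 : ℝ) / mu ^ 1)
      (one_lt_two)
    refine ⟨a0, fun n hn => ?_⟩
    have g0 : 0 ≤ (c 0 : ℝ) / mu ^ 0 := div_nonneg (Nat.cast_nonneg _) (pow_pos mu_pos _).le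
    have g1 : 0 ≤ (c 1 : ℝ) / mu ^ 1 := div_nonneg (Nat.cast_nonneg _) (pow_pos mu_pos _).le
    interval_cases n
    · linarith
    · linarith
  refine ⟨6 + (a + 6 * K), fun L hL => ?_⟩
  have hLr : (2 : ℝ) ≤ L := by exact_mod_cast hL
  have hL1 : (1 : ℝ) ≤ L := by linarith
  have hb := pow_bound hLr
  have hterm : ∀ n ∈ Finset.range ((2 * L + 1) ^ 2),
      ((walks n ∩ inBox L n).ncard : ℝ) / mu ^ n ≤ (L : ℝ) ^ (a + 6 * K) := by
    intro n hn
    rw [Finset.mem_range] at hn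
    have hmu := pow_pos mu_pos n
    have h1 : ((walks n ∩ inBox L n).ncard : ℝ) ≤ (c n : ℝ) := by
      have := Set.ncard_le_ncard (Set.inter_subset_left : walks n ∩ inBox L n ⊆ walks n)
        (walks_finite n)
      exact_mod_cast this
    have h2 : ((walks n ∩ inBox L n).ncard : ℝ) / mu ^ n ≤ (c n : ℝ) / mu ^ n :=
      div_le_div_of_nonneg_right h1 hmu.le
    refine h2.trans ?_
    rcases lt_or_ge n 2 with hn2 | hn2
    · refine (ha n hn2).trans ?_
      calc (2 : ℝ) ^ a ≤ (L : ℝ) ^ a := pow_le_pow_left₀ (by norm_num) hLr a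
        _ ≤ (L : ℝ) ^ (a + 6 * K) := pow_le_pow_right₀ hL1 (by omega)
    · have h3 : (c n : ℝ) / mu ^ n ≤ (n : ℝ) ^ K := by
        rw [div_le_iff₀ hmu]
        exact hK n hn2
      refine h3.trans ?_
      have h4 : (n : ℝ) ≤ (L : ℝ) ^ 6 := by
        have h5 : (n : ℝ) ≤ ((2 * L + 1) ^ 2 : ℝ) := by exact_mod_cast hn.le
        have h6 : ((2 * L + 1) ^ 2 : ℝ) ≤ ((L : ℝ) ^ 3) ^ 2 :=
          pow_le_pow_left₀ (by positivity) hb 2
        calc (n : ℝ) ≤ ((2 * L + 1) ^ 2 : ℝ) := h5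
          _ ≤ ((L : ℝ) ^ 3) ^ 2 := h6
          _ = (L : ℝ) ^ 6 := by ring
      calc (n : ℝ) ^ K ≤ ((L : ℝ) ^ 6) ^ K := pow_le_pow_left₀ (by positivity) h4 K
        _ = (L : ℝ) ^ (6 * K) := by rw [← pow_mul]
        _ ≤ (L : ℝ) ^ (a + 6 * K) := pow_le_pow_right₀ hL1 (by omega)
  have hsum : Zbox walks L ≤ (L : ℝ) ^ (6 + (a + 6 * K)) := by
    unfold Zbox
    refine (Finset.sum_le_sum hterm).trans ?_
    rw [Finset.sum_const, Finset.card_range, nsmul_eq_mul]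
    have h6 : (((2 * L + 1) ^ 2 : ℕ) : ℝ) ≤ (L : ℝ) ^ 6 := by
      push_cast
      calc (2 * (L : ℝ) + 1) ^ 2 ≤ ((L : ℝ) ^ 3) ^ 2 := pow_le_pow_left₀ (by positivity) hb 2
        _ = (L : ℝ) ^ 6 := by ring
    rw [pow_add (L : ℝ) 6]
    exact mul_le_mul_of_nonneg_right h6 (by positivity)
  have h1 := one_le_Zvis L
  have hpos : (0 : ℝ) ≤ (L : ℝ) ^ (6 + (a + 6 * K)) := by positivity
  nlinarith

theorem poly_864 {n : ℕ} (hn : 2 ≤ n) : 864 * (2 * (n : ℝ) + 1) ^ 4 ≤ (n : ℝ) ^ 22 := by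
  have hnr : (2 : ℝ) ≤ n := by exact_mod_cast hn
  have hb := pow_bound hnr
  have h1 : (864 : ℝ) ≤ (n : ℝ) ^ 10 := by
    calc (864 : ℝ) ≤ 2 ^ 10 := by norm_num
      _ ≤ (n : ℝ) ^ 10 := pow_le_pow_left₀ (by norm_num) hnr 10
  have h2 : (2 * (n : ℝ) + 1) ^ 4 ≤ ((n : ℝ) ^ 3) ^ 4 := pow_le_pow_left₀ (by positivity) hb 4
  calc 864 * (2 * (n : ℝ) + 1) ^ 4 ≤ (n : ℝ) ^ 10 * ((n : ℝ) ^ 3) ^ 4 :=
        mul_le_mul h1 h2 (by positivity) (by positivity)
    _ = (n : ℝ) ^ 22 := by ring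

theorem part_three_mpr
    (h : ∃ K : ℕ, ∀ L : ℕ, 2 ≤ L → Zbox walks L ≤ (L : ℝ) ^ K * Zbox vis L) :
    ∃ K : ℕ, ∀ n : ℕ, 2 ≤ n → (c n : ℝ) ≤ (n : ℝ) ^ K * mu ^ n := by
  obtain ⟨K, hK⟩ := h
  refine ⟨K + 22, fun n hn => ?_⟩
  have hmu := pow_pos mu_pos n
  have h1 := c_le_Zbox n
  have h2 := hK n hn
  have h3 : Zbox vis n ≤ (n : ℝ) ^ 22 := (vis_sum n _).trans (poly_864 hn)
  have h4 : (c n : ℝ) / mu ^ n ≤ (n : ℝ) ^ (K + 22) := by
    calc (c n : ℝ) / mu ^ n ≤ (n : ℝ) ^ K * Zbox vis n := h1.trans h2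
      _ ≤ (n : ℝ) ^ K * (n : ℝ) ^ 22 := mul_le_mul_of_nonneg_left h3 (by positivity)
      _ = (n : ℝ) ^ (K + 22) := by rw [pow_add]
  rwa [div_le_iff₀ hmu] at h4

theorem part_two (K n : ℕ) (hn : 2 ≤ n) (h : 1 ≤ (n : ℝ) ^ K * Pvis n) :
    (c n : ℝ) ≤ (n : ℝ) ^ (K + 22) * mu ^ n := by
  have h1 := part_one n
  have h2 := poly_864 hn
  have hmu := pow_pos mu_pos n
  have hc : (0 : ℝ) < c n := by
    rcases Nat.eq_zero_or_pos (c n) with h0 | h0
    · exfalso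
      unfold Pvis at h
      rw [h0] at h
      norm_num at h
    · exact_mod_cast h0
  have h3 : (c n : ℝ) * Pvis n = ((vis n).ncard : ℝ) := by
    unfold Pvis
    field_simp
  calc (c n : ℝ) ≤ (c n : ℝ) * ((n : ℝ) ^ K * Pvis n) := le_mul_of_one_le_right hc.le h
    _ = (n : ℝ) ^ K * ((vis n).ncard : ℝ) := by rw [← h3]; ring
    _ ≤ (n : ℝ) ^ K * (864 * (2 * (n : ℝ) + 1) ^ 4 * mu ^ n) :=
        mul_le_mul_of_nonneg_left h1 (by positivity)
    _ ≤ (n : ℝ) ^ K * ((n : ℝ) ^ 22 * mu ^ n) :=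
        mul_le_mul_of_nonneg_left (mul_le_mul_of_nonneg_right h2 hmu.le) (by positivity)
    _ = (n : ℝ) ^ (K + 22) * mu ^ n := by rw [pow_add]; ring

/-- **Theorem** (honeycomb lattice, `μ = √(2+√2)`, `c n` the number of `n`-step self-avoiding walks).
(1) For every `n`, the number of `n`-step self-avoiding walks both of whose end points are visible
is at most `864 (2n+1)^4 μ^n`.
(2) If for some `n ≥ 2` both end points of the uniform `n`-step walk are visible with probability at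
least `n^{-K}`, then `c n ≤ n^{K+22} μ^n`.
(3) In every box `[-L, L]²` the critical partition function of the walks from the origin both of
whose end points are visible is between `1` and `864 (2L+1)^4`.
(4) There is `K` with `c n ≤ n^K μ^n` for all `n ≥ 2` if and only if there is `K` such that in the
box `[-L, L]²` both end points of the critical walk from the origin (weight `μ^{-n}` for `n` steps)
are visible with probability at least `L^{-K}`, for all `L ≥ 2`. -/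
theorem result :
    (∀ n : ℕ, ((vis n).ncard : ℝ) ≤ 864 * (2 * (n : ℝ) + 1) ^ 4 * mu ^ n) ∧
    (∀ K n : ℕ, 2 ≤ n → 1 ≤ (n : ℝ) ^ K * Pvis n → (c n : ℝ) ≤ (n : ℝ) ^ (K + 22) * mu ^ n) ∧
    (∀ L : ℕ, 1 ≤ Zbox vis L ∧ Zbox vis L ≤ 864 * (2 * (L : ℝ) + 1) ^ 4) ∧
    ((∃ K : ℕ, ∀ n : ℕ, 2 ≤ n → (c n : ℝ) ≤ (n : ℝ) ^ K * mu ^ n) ↔
      ∃ K : ℕ, ∀ L : ℕ, 2 ≤ L → Zbox walks L ≤ (L : ℝ) ^ K * Zbox vis L) :=
  ⟨part_one, part_two, fun L => ⟨one_le_Zvis L, vis_sum L _⟩, part_three_mp, part_three_mpr⟩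

end Pool.Agent.Results.MP_b440f6_pr.VisibleEndPoints
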