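import Pool.Agent.H131.V3.Lin
import Pool.Agent.H131.V3.Cut
import Pool.Graph.R_seed8.Results.MP_b440f6_pr.HoneycombLogTwo

/-!
Self-avoiding walks on the honeycomb lattice (brick-wall coordinates, same description as in the
frozen statement) and the winding of the walks of the half-plane. With `E n = E (cos (3 Θ / 8))`,
`Θ` the total turning of the uniform `n`-step self-avoiding walk of the half-plane, `h n * E n` is
between `μ^n / (n + 4)` and `μ^n`; `c n` is at most a power of `n` times `μ^n` if and only if `E n`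
decays at most polynomially; and unconditionally `E n ≥ exp (- K (log n)^2)`.
-/

set_option autoImplicit false

namespace Pool.Agent.Results.MP_b440f6_pr.WindingCriterion

/-- Adjacency in the honeycomb lattice (brick-wall model), as in the frozen statement. -/
def Nbr (p q : ℤ × ℤ) : Prop :=
  (p.2 = q.2 ∧ (p.1 - q.1 = 1 ∨ q.1 - p.1 = 1)) ∨
    (p.1 = q.1 ∧ ((q.2 = p.2 + 1 ∧ Even (p.1 + p.2)) ∨ (p.2 = q.2 + 1 ∧ Even (q.1 + q.2))))

/-- The set of `n`-step self-avoiding walks from the origin. -/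
def walks (n : ℕ) : Set (Fin (n + 1) → ℤ × ℤ) :=
  {ω | ω 0 = (0, 0) ∧ Function.Injective ω ∧ ∀ i : Fin n, Nbr (ω i.castSucc) (ω i.succ)}

/-- The number of `n`-step self-avoiding walks from the origin. -/
noncomputable def c (n : ℕ) : ℕ := (walks n).ncard

/-- The connective constant. -/
noncomputable def mu : ℝ := Real.sqrt (2 + Real.sqrt 2)

/-- The honeycomb lattice in the plane, with edges of length `1` (`Nbr p q` if and only if the
distance of `emb p` and `emb q` is `1`). -/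
noncomputable def emb (v : ℤ × ℤ) : ℂ :=
  ⟨Real.sqrt 3 / 2 * v.1, 3 / 2 * v.2 + if Even (v.1 + v.2) then 1 / 2 else 0⟩

/-- The `n`-step self-avoiding walks of the half-plane `{x - y ≥ 1}` (brick-wall coordinates; its
boundary line is orthogonal to the edge from `(0,0)` to `(1,0)`) which start through the boundary
edge from `(0,0)` to `(1,0)`: this edge is traversed first and then `n` steps are made in the
half-plane. -/
def halfWalks (n : ℕ) : Set (Fin (n + 2) → ℤ × ℤ) :=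
  {ω | ω 0 = (0, 0) ∧ ω 1 = (1, 0) ∧ Function.Injective ω ∧
    (∀ i : Fin (n + 1), Nbr (ω i.castSucc) (ω i.succ)) ∧
    ∀ i : Fin (n + 1), 1 ≤ (ω i.succ).1 - (ω i.succ).2}

/-- The number of these walks. -/
noncomputable def h (n : ℕ) : ℕ := (halfWalks n).ncard

/-- The total turning: the sum of the `n` turning angles (each of them `π/3` or `-π/3`). -/
noncomputable def turning {n : ℕ} (ω : Fin (n + 2) → ℤ × ℤ) : ℝ :=
  ∑ i : Fin n, Complex.arg ((emb (ω i.succ.succ) - emb (ω i.succ.castSucc)) /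
    (emb (ω i.succ.castSucc) - emb (ω i.castSucc.castSucc)))

/-- The expectation of `cos (3 Θ / 8)`, `Θ` the total turning of the uniform `n`-step self-avoiding
walk of the half-plane. -/
noncomputable def E (n : ℕ) : ℝ :=
  (∑ᶠ ω ∈ halfWalks n, Real.cos (3 / 8 * turning ω)) / (h n : ℝ)

/-! ### Proofs -/

open H978R2.Hex

theorem adj_of_nbr {p q : ℤ × ℤ} (h : Nbr p q) : Adj p q := by
  rw [adj_iff]
  unfold Nbr at h
  simp only [Int.even_iff] at h
  omega

theorem nbr_of_adj {p q : ℤ × ℤ} (h : Adj p q) : Nbr p q := by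
  rw [adj_iff] at h
  unfold Nbr
  simp only [Int.even_iff]
  omega

theorem emb_eq (v : ℤ × ℤ) : emb v = pos v + ⟨0, 1 / 2⟩ := by
  unfold emb pos ht
  rcases Int.emod_two_eq_zero_or_one (v.1 + v.2) with hv | hv
  · rw [if_pos (Int.even_iff.mpr hv), hv]
    apply Complex.ext
    · simp
    · simp only [Complex.add_im]
      push_cast
      ring
  · rw [if_neg (by rw [Int.even_iff, hv]; norm_num), hv]
    apply Complex.ext
    · simp
    · simp only [Complex.add_im]
      push_cast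
      ring

theorem emb_sub (p q : ℤ × ℤ) : emb p - emb q = pos p - pos q := by
  rw [emb_eq, emb_eq]
  ring

theorem turning_eq : ∀ (n : ℕ) (ω : Fin (n + 2) → ℤ × ℤ), Function.Injective ω →
    (∀ i : Fin (n + 1), Adj (ω i.castSucc) (ω i.succ)) →
    turning ω = (W (List.ofFn ω).reverse : ℝ) * (Real.pi / 3)
  | 0, ω, _, _ => by
    unfold turning
    rw [Finset.univ_eq_empty, Finset.sum_empty]
    have : (List.ofFn ω).reverse = [ω 1, ω 0] := by
      rw [List.ofFn_succ, List.ofFn_succ, List.ofFn_zero]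
      rfl
    rw [this]
    simp [W]
  | n + 1, ω, hinj, hadj => by
    have ih := turning_eq n (fun i => ω i.castSucc) (fun a b hab =>
      Fin.castSucc_injective _ (hinj hab)) (fun i => by
        have := hadj i.castSucc
        rwa [Fin.succ_castSucc] at this)
    have e1 : (List.ofFn ω).reverse = ω (Fin.last (n + 2)) ::
        (List.ofFn (fun i : Fin (n + 2) => ω i.castSucc)).reverse := by
      rw [List.ofFn_succ_last, List.reverse_append]
      rfl
    have e2 : (List.ofFn (fun i : Fin (n + 2) => ω i.castSucc)).reverse =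
        ω (Fin.last (n + 1)).castSucc :: ω (Fin.last n).castSucc.castSucc ::
          (List.ofFn (fun i : Fin n => ω i.castSucc.castSucc.castSucc)).reverse := by
      rw [List.ofFn_succ_last, List.reverse_append, List.ofFn_succ_last, List.reverse_append]
      rfl
    have e3 : W (List.ofFn ω).reverse = turn (ω (Fin.last n).castSucc.castSucc)
        (ω (Fin.last (n + 1)).castSucc) (ω (Fin.last (n + 2))) +
        W (List.ofFn (fun i : Fin (n + 2) => ω i.castSucc)).reverse := by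
      rw [e1, e2]
      rfl
    have h1 : Adj (ω (Fin.last n).castSucc.castSucc) (ω (Fin.last (n + 1)).castSucc) := by
      have := hadj (Fin.last n).castSucc
      rwa [Fin.succ_castSucc, Fin.succ_last] at this
    have h2 : Adj (ω (Fin.last (n + 1)).castSucc) (ω (Fin.last (n + 2))) := by
      have := hadj (Fin.last (n + 1))
      rwa [Fin.succ_last] at this
    have h3 : ω (Fin.last n).castSucc.castSucc ≠ ω (Fin.last (n + 2)) := by
      intro e
      have := hinj e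
      have := congrArg Fin.val this
      simp at this
    have ha := arg_turn h1 h2 h3
    rw [e3]
    push_cast
    rw [add_mul, ← ih, ← ha]
    unfold turning
    rw [Fin.sum_univ_castSucc, add_comm]
    congr 1
    rw [emb_sub, emb_sub]
    rfl

/-- the list of the vertices, the last one first -/
def Phi {n : ℕ} (ω : Fin (n + 2) → ℤ × ℤ) : List V := (List.ofFn ω).reverse

theorem Phi_inj (n : ℕ) : Function.Injective (Phi (n := n)) := by
  intro a b hab
  exact List.ofFn_injective (List.reverse_injective hab)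

theorem Phi_image (n : ℕ) : Phi '' halfWalks n = (Free H131.V3.HPl n : Set (List V)) := by
  ext l
  simp only [Set.mem_image, Finset.mem_coe]
  constructor
  · rintro ⟨ω, ⟨h0, h1, h2, h3, h4⟩, rfl⟩
    unfold Phi
    apply H131.V3.free_of
    · refine ⟨(List.ofFn (fun i : Fin n => ω i.succ.succ)).reverse, ?_⟩
      rw [List.ofFn_succ, List.ofFn_succ, h0, ← h1]
      simp
    · rw [List.isChain_reverse, List.isChain_ofFn]
      intro i hi
      exact adj_of_nbr (h3 ⟨i, by omega⟩)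
    · exact List.nodup_reverse.mpr (List.nodup_ofFn.mpr h2)
    · intro v hv
      rw [List.dropLast_reverse, List.mem_reverse, List.ofFn_succ, List.tail_cons] at hv
      obtain ⟨i, rfl⟩ := List.mem_ofFn.mp hv
      exact h4 i
    · simp
  · intro hl
    obtain ⟨g1, g2, g3, g4, g5⟩ := H131.V3.of_free hl
    have hlen : l.reverse.length = n + 2 := by rw [List.length_reverse, g5]
    obtain ⟨ω, hω⟩ : ∃ ω : Fin (n + 2) → ℤ × ℤ, List.ofFn ω = l.reverse := by
      refine ⟨fun i => l.reverse.get (Fin.cast hlen.symm i), ?_⟩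
      apply List.ext_getElem
      · rw [List.length_ofFn, hlen]
      · intro i h1 h2
        rw [List.getElem_ofFn]
        rfl
    have hl' : l = (List.ofFn ω).reverse := by rw [hω, List.reverse_reverse]
    refine ⟨ω, ⟨?_, ?_, ?_, ?_, ?_⟩, hl'.symm⟩
    · obtain ⟨t, ht⟩ := g1
      rw [← ht, List.reverse_append, List.ofFn_succ, List.ofFn_succ] at hω
      simp only [List.reverse_cons, List.reverse_nil, List.nil_append, List.cons_append,
        List.cons.injEq] at hω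
      exact hω.1
    · obtain ⟨t, ht⟩ := g1
      rw [← ht, List.reverse_append, List.ofFn_succ, List.ofFn_succ] at hω
      simp only [List.reverse_cons, List.reverse_nil, List.nil_append, List.cons_append,
        List.cons.injEq] at hω
      exact hω.2.1
    · rw [← List.nodup_ofFn, hω]
      exact List.nodup_reverse.mpr g3
    · rw [hl', List.isChain_reverse, List.isChain_ofFn] at g2
      intro i
      exact nbr_of_adj (g2 i.1 (by omega))
    · intro i
      apply g4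
      rw [hl', List.dropLast_reverse, List.mem_reverse, List.ofFn_succ, List.tail_cons]
      exact List.mem_ofFn.mpr ⟨i, rfl⟩

theorem halfWalks_finite (n : ℕ) : (halfWalks n).Finite := by
  apply Set.Finite.of_finite_image (f := Phi) _ (Phi_inj n).injOn
  rw [Phi_image]
  exact Finset.finite_toSet _

theorem h_eq (n : ℕ) : h n = H131.V3.hc n := by
  unfold h H131.V3.hc
  rw [← Set.ncard_image_of_injective _ (Phi_inj n), Phi_image, Set.ncard_coe_finset]

theorem cos_eq {n : ℕ} {ω : Fin (n + 2) → ℤ × ℤ} (hω : ω ∈ halfWalks n) :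
    Real.cos (3 / 8 * turning ω) = Real.cos ((W (Phi ω) : ℝ) * (Real.pi / 8)) := by
  obtain ⟨-, -, h2, h3, -⟩ := hω
  rw [turning_eq n ω h2 (fun i => adj_of_nbr (h3 i))]
  congr 1
  unfold Phi
  ring

theorem sum_eq (n : ℕ) : ∑ᶠ ω ∈ halfWalks n, Real.cos (3 / 8 * turning ω) =
    mu ^ n * (1 - Real.cos (3 * (Real.pi / 8)) * H131.V3.AH n) := by
  rw [finsum_mem_congr rfl (fun ω hω => cos_eq hω)]
  rw [← finsum_mem_image (s := halfWalks n) (g := Phi)
    (f := fun l : List V => Real.cos ((W l : ℝ) * (Real.pi / 8))) (Phi_inj n).injOn,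
    Phi_image, finsum_mem_coe_finset]
  exact H131.V3.half_identity n

theorem mu_pos : 0 < mu := mu0_pos

theorem one_le_mu : 1 ≤ mu := by
  unfold mu
  rw [Real.one_le_sqrt]
  have := Real.sqrt_nonneg 2
  linarith

theorem mu_le_two : mu ≤ 2 := by
  unfold mu
  rw [Real.sqrt_le_left (by norm_num)]
  have h2 : Real.sqrt 2 ≤ 2 := by
    rw [Real.sqrt_le_left (by norm_num)]
    norm_num
  linarith

/-- the defect -/
noncomputable def Y (n : ℕ) : ℝ := 1 - Real.cos (3 * (Real.pi / 8)) * H131.V3.AH n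

theorem AH_mono {m n : ℕ} (hmn : m ≤ n) : H131.V3.AH m ≤ H131.V3.AH n := by
  unfold H131.V3.AH
  apply Finset.sum_le_sum_of_subset_of_nonneg
  · intro i hi
    rw [Finset.mem_range] at hi ⊢
    omega
  · intro i _ _
    have := mu0_pos
    positivity

theorem Y_mono {m n : ℕ} (hmn : m ≤ n) : Y n ≤ Y m := by
  unfold Y
  have := mul_le_mul_of_nonneg_left (AH_mono hmn) H131.V1.cos_pos.le
  linarith

theorem Y_le (n : ℕ) : Y n ≤ 1 := by
  unfold Y
  have h1 : 0 ≤ H131.V3.AH n := by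
    unfold H131.V3.AH
    apply Finset.sum_nonneg
    intro i _
    have := mu0_pos
    positivity
  have := mul_nonneg H131.V1.cos_pos.le h1
  linarith

theorem Y_ge (n : ℕ) : 1 / ((n : ℝ) + 4) ≤ Y n := H131.V3.Y_ge n

theorem Y_pos (n : ℕ) : 0 < Y n := lt_of_lt_of_le (by positivity) (Y_ge n)

theorem h_pos (n : ℕ) : 0 < h n := by
  rcases Nat.eq_zero_or_pos (h n) with h0 | h0
  · exfalso
    have h1 : halfWalks n = ∅ := (Set.ncard_eq_zero (halfWalks_finite n)).mp h0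
    have h2 := sum_eq n
    rw [h1, finsum_mem_empty] at h2
    have h3 := mul_pos (pow_pos mu_pos n) (Y_pos n)
    unfold Y at h3
    linarith
  · exact h0

theorem hE (n : ℕ) : (h n : ℝ) * E n = mu ^ n * Y n := by
  unfold E Y
  rw [mul_div_cancel₀ _ (by exact_mod_cast (h_pos n).ne' : (h n : ℝ) ≠ 0), sum_eq]

theorem hE_div (n : ℕ) : (h n : ℝ) * E n / mu ^ n = Y n := by
  rw [hE, mul_div_cancel_left₀ _ (pow_pos mu_pos n).ne']

theorem E_pos (n : ℕ) : 0 < E n := by
  have h1 : 0 < (h n : ℝ) * E n := by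
    rw [hE]
    exact mul_pos (pow_pos mu_pos n) (Y_pos n)
  have h2 : (0 : ℝ) < h n := by exact_mod_cast h_pos n
  exact (mul_pos_iff_of_pos_left h2).mp h1

theorem hE_le (n : ℕ) : (h n : ℝ) * E n ≤ mu ^ n := by
  rw [hE]
  calc mu ^ n * Y n ≤ mu ^ n * 1 := mul_le_mul_of_nonneg_left (Y_le n) (pow_pos mu_pos n).le
    _ = mu ^ n := mul_one _

theorem hE_ge (n : ℕ) : mu ^ n / ((n : ℝ) + 4) ≤ (h n : ℝ) * E n := by
  rw [hE, div_eq_mul_one_div]
  exact mul_le_mul_of_nonneg_left (Y_ge n) (pow_pos mu_pos n).le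

/-- the box as a finite set -/
noncomputable def Bx (L : ℕ) : Finset (ℤ × ℤ) := Finset.Icc (-(L : ℤ)) L ×ˢ Finset.Icc (-(L : ℤ)) L

theorem mem_Bx {L : ℕ} {v : ℤ × ℤ} : v ∈ Bx L ↔ |v.1| ≤ (L : ℤ) ∧ |v.2| ≤ (L : ℤ) := by
  unfold Bx
  rw [Finset.mem_product, Finset.mem_Icc, Finset.mem_Icc, abs_le, abs_le]

theorem card_Bx (L : ℕ) : (Bx L).card = (2 * L + 1) ^ 2 := by
  unfold Bx
  rw [Finset.card_product, Int.card_Icc, pow_two]
  congr 1 <;> omega

theorem walks_inBox {n : ℕ} {ω : Fin (n + 1) → ℤ × ℤ} (h : ω ∈ walks n) (i : Fin (n + 1)) :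
    ω i ∈ Bx n := by
  obtain ⟨h0, -, h1⟩ := h
  have key : ∀ j : ℕ, ∀ hj : j < n + 1, |(ω ⟨j, hj⟩).1| ≤ (j : ℤ) ∧ |(ω ⟨j, hj⟩).2| ≤ (j : ℤ) := by
    intro j
    induction j with
    | zero =>
      intro hj
      have e : (⟨0, hj⟩ : Fin (n + 1)) = 0 := rfl
      rw [e, h0]
      simp
    | succ j ih =>
      intro hj
      have hj' : j < n := by omega
      have h2 := h1 ⟨j, hj'⟩
      have h3 := ih (by omega)
      have e1 : (⟨j, hj'⟩ : Fin n).castSucc = ⟨j, by omega⟩ := rfl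
      have e2 : (⟨j, hj'⟩ : Fin n).succ = ⟨j + 1, hj⟩ := rfl
      rw [e1, e2] at h2
      unfold Nbr at h2
      simp only [abs_le] at h3 ⊢
      push_cast
      omega
  have h2 := key i.1 i.2
  have h3 : (i.1 : ℤ) ≤ n := by
    have := i.2
    omega
  exact mem_Bx.mpr ⟨h2.1.trans h3, h2.2.trans h3⟩

theorem walks_finite (n : ℕ) : (walks n).Finite := by
  have h : (Set.pi Set.univ fun _ : Fin (n + 1) => (Bx n : Set (ℤ × ℤ))).Finite :=
    Set.Finite.pi fun _ => (Bx n).finite_toSet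
  exact h.subset fun ω hω i _ => Finset.mem_coe.mpr (walks_inBox hω i)

theorem h_le_c (n : ℕ) : h n ≤ c (n + 1) := by
  apply Set.ncard_le_ncard _ (walks_finite (n + 1))
  rintro ω ⟨h0, -, h2, h3, -⟩
  exact ⟨h0, h2, h3⟩

/-- cutting -/
theorem c_le (n : ℕ) : c n ≤ ∑ a ∈ Finset.range (n + 1), h a * h (n - a) + 2 * h (n + 1) := by
  classical
  have key := H131.V3.cut_card n ((walks_finite n).toFinset.image (fun ω => List.ofFn ω)) (by
    intro l hl
    obtain ⟨ω, hω, rfl⟩ := Finset.mem_image.mp hl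
    have hω' := (walks_finite n).mem_toFinset.mp hω
    have ⟨h0, h1, h2⟩ := hω'
    refine ⟨?_, ?_, ?_, ?_⟩
    · rw [List.ofFn_succ, List.head?_cons, h0]
    · exact List.nodup_ofFn.mpr h1
    · rw [List.isChain_ofFn]
      intro i hi
      exact adj_of_nbr (h2 ⟨i, by omega⟩)
    · rw [List.length_ofFn])
  rw [Finset.card_image_of_injective _ (fun a b hab => List.ofFn_injective hab),
    ← Set.ncard_eq_toFinset_card _ (walks_finite n)] at key
  simp only [h_eq]
  exact key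

theorem h_le (a : ℕ) : (h a : ℝ) ≤ mu ^ a * (1 / E a) := by
  rw [mul_one_div, le_div_iff₀ (E_pos a)]
  exact hE_le a

theorem upper (n : ℕ) : (c n : ℝ) ≤
    mu ^ n * (∑ a ∈ Finset.range (n + 1), 1 / (E a * E (n - a)) + 2 * mu / E (n + 1)) := by
  have h1 : (c n : ℝ) ≤ ((∑ a ∈ Finset.range (n + 1), h a * h (n - a) + 2 * h (n + 1) : ℕ) : ℝ) := by
    exact_mod_cast c_le n
  push_cast at h1
  refine h1.trans ?_
  rw [mul_add]
  apply add_le_add
  · rw [Finset.mul_sum]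
    apply Finset.sum_le_sum
    intro a ha
    rw [Finset.mem_range] at ha
    have e : mu ^ n = mu ^ a * mu ^ (n - a) := by
      rw [← pow_add]
      congr 1
      omega
    have ha1 := (E_pos a).le
    have hmu := (pow_pos mu_pos a).le
    calc (h a : ℝ) * (h (n - a) : ℝ) ≤ (mu ^ a * (1 / E a)) * (mu ^ (n - a) * (1 / E (n - a))) :=
          mul_le_mul (h_le a) (h_le (n - a)) (Nat.cast_nonneg _)
            (mul_nonneg hmu (one_div_nonneg.mpr ha1))
      _ = mu ^ n * (1 / (E a * E (n - a))) := by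
          rw [e]
          ring
  · have h2 := h_le (n + 1)
    calc 2 * (h (n + 1) : ℝ) ≤ 2 * (mu ^ (n + 1) * (1 / E (n + 1))) :=
          mul_le_mul_of_nonneg_left h2 (by norm_num)
      _ = mu ^ n * (2 * mu / E (n + 1)) := by
          rw [pow_succ]
          ring

theorem lower (n : ℕ) : mu ^ n ≤ ((n : ℝ) + 4) * E n * c (n + 1) := by
  have h1 := hE_ge n
  rw [div_le_iff₀ (by positivity)] at h1
  have h2 : (h n : ℝ) ≤ c (n + 1) := by exact_mod_cast h_le_c n
  have h3 := (E_pos n).le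
  calc mu ^ n ≤ (h n : ℝ) * E n * ((n : ℝ) + 4) := h1
    _ ≤ (c (n + 1) : ℝ) * E n * ((n : ℝ) + 4) := by
        apply mul_le_mul_of_nonneg_right _ (by positivity)
        exact mul_le_mul_of_nonneg_right h2 h3
    _ = ((n : ℝ) + 4) * E n * c (n + 1) := by ring

theorem half_poly {K b : ℕ} (hK : ∀ n : ℕ, 2 ≤ n → 1 ≤ (n : ℝ) ^ K * E n)
    (hb : ∀ n : ℕ, n < 2 → (h n : ℝ) ≤ 2 ^ b) (n a : ℕ) (hn : 2 ≤ n) (ha : a ≤ n + 1) :
    (h a : ℝ) ≤ ((n : ℝ) + 1) ^ (K + b) * mu ^ a := by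
  have hn1 : (1 : ℝ) ≤ (n : ℝ) + 1 := by linarith [Nat.cast_nonneg (α := ℝ) n]
  have hn2 : (2 : ℝ) ≤ (n : ℝ) + 1 := by
    have : (2 : ℝ) ≤ n := by exact_mod_cast hn
    linarith
  rcases Nat.lt_or_ge a 2 with h2 | h2
  · calc (h a : ℝ) ≤ 2 ^ b := hb a h2
      _ ≤ ((n : ℝ) + 1) ^ b := pow_le_pow_left₀ (by norm_num) hn2 b
      _ ≤ ((n : ℝ) + 1) ^ (K + b) := pow_le_pow_right₀ hn1 (by omega)
      _ ≤ ((n : ℝ) + 1) ^ (K + b) * mu ^ a :=
          le_mul_of_one_le_right (by positivity) (one_le_pow₀ one_le_mu)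
  · have h3 := hK a h2
    have h4 : (0 : ℝ) < h a := by exact_mod_cast h_pos a
    have h5 : (a : ℝ) ≤ (n : ℝ) + 1 := by exact_mod_cast ha
    calc (h a : ℝ) = h a * 1 := (mul_one _).symm
      _ ≤ h a * ((a : ℝ) ^ K * E a) := mul_le_mul_of_nonneg_left h3 h4.le
      _ = (a : ℝ) ^ K * (h a * E a) := by ring
      _ ≤ (a : ℝ) ^ K * mu ^ a := mul_le_mul_of_nonneg_left (hE_le a) (by positivity)
      _ ≤ ((n : ℝ) + 1) ^ (K + b) * mu ^ a := by
          apply mul_le_mul_of_nonneg_right _ (pow_pos mu_pos a).le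
          calc (a : ℝ) ^ K ≤ ((n : ℝ) + 1) ^ K := pow_le_pow_left₀ (by positivity) h5 K
            _ ≤ ((n : ℝ) + 1) ^ (K + b) := pow_le_pow_right₀ hn1 (by omega)

theorem part_three_mpr (hE' : ∃ K : ℕ, ∀ n : ℕ, 2 ≤ n → 1 ≤ (n : ℝ) ^ K * E n) :
    ∃ K : ℕ, ∀ n : ℕ, 2 ≤ n → (c n : ℝ) ≤ (n : ℝ) ^ K * mu ^ n := by
  obtain ⟨K, hK⟩ := hE'
  obtain ⟨b, hb⟩ : ∃ b : ℕ, ∀ n : ℕ, n < 2 → (h n : ℝ) ≤ 2 ^ b := by
    obtain ⟨b, hb⟩ := pow_unbounded_of_one_lt ((h 0 : ℝ) + (h 1 : ℝ)) (one_lt_two)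
    refine ⟨b, fun n hn => ?_⟩
    have g0 : (0 : ℝ) ≤ h 0 := Nat.cast_nonneg _
    have g1 : (0 : ℝ) ≤ h 1 := Nat.cast_nonneg _
    interval_cases n
    · linarith
    · linarith
  refine ⟨2 * (2 + 2 * (K + b)), fun n hn => ?_⟩
  have hnr : (2 : ℝ) ≤ n := by exact_mod_cast hn
  have hn1 : (1 : ℝ) ≤ (n : ℝ) + 1 := by linarith
  have hmu := pow_pos mu_pos n
  set N : ℝ := (n : ℝ) + 1 with hN
  set T : ℝ := N ^ (K + b) with hT
  have hT1 : 1 ≤ T := one_le_pow₀ hn1
  have hT0 : 0 ≤ T := by linarith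
  have h1 : ∀ a ∈ Finset.range (n + 1), ((h a * h (n - a) : ℕ) : ℝ) ≤ T * T * mu ^ n := by
    intro a ha
    rw [Finset.mem_range] at ha
    have e : mu ^ n = mu ^ a * mu ^ (n - a) := by
      rw [← pow_add]
      congr 1
      omega
    have g1 := half_poly hK hb n a hn (by omega)
    have g2 := half_poly hK hb n (n - a) hn (by omega)
    rw [Nat.cast_mul, e]
    calc (h a : ℝ) * (h (n - a) : ℝ) ≤ (T * mu ^ a) * (T * mu ^ (n - a)) :=
          mul_le_mul g1 g2 (Nat.cast_nonneg _) (mul_nonneg hT0 (pow_pos mu_pos a).le)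
      _ = T * T * (mu ^ a * mu ^ (n - a)) := by ring
  have h2 : ((∑ a ∈ Finset.range (n + 1), h a * h (n - a) : ℕ) : ℝ) ≤ N * (T * T * mu ^ n) := by
    rw [Nat.cast_sum]
    refine (Finset.sum_le_sum h1).trans (le_of_eq ?_)
    rw [Finset.sum_const, Finset.card_range, nsmul_eq_mul]
    push_cast
    rfl
  have h3 : ((2 * h (n + 1) : ℕ) : ℝ) ≤ 4 * (T * T * mu ^ n) := by
    have g := half_poly hK hb n (n + 1) hn le_rfl
    have g2 : (h (n + 1) : ℝ) ≤ T * mu ^ n * 2 := by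
      calc (h (n + 1) : ℝ) ≤ T * mu ^ (n + 1) := g
        _ = T * mu ^ n * mu := by rw [pow_succ]; ring
        _ ≤ T * mu ^ n * 2 := mul_le_mul_of_nonneg_left mu_le_two (by positivity)
    have g3 : T * mu ^ n ≤ T * T * mu ^ n := by
      apply mul_le_mul_of_nonneg_right _ hmu.le
      nlinarith
    push_cast
    linarith
  have h4 : (c n : ℝ) ≤ (N + 4) * (T * T * mu ^ n) := by
    have g : (c n : ℝ) ≤
        ((∑ a ∈ Finset.range (n + 1), h a * h (n - a) + 2 * h (n + 1) : ℕ) : ℝ) := by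
      exact_mod_cast c_le n
    rw [Nat.cast_add] at g
    linarith
  have h6 : N + 4 ≤ N ^ 2 := by
    rw [hN]
    nlinarith
  have h7 : N ≤ (n : ℝ) ^ 2 := by
    rw [hN]
    nlinarith
  calc (c n : ℝ) ≤ (N + 4) * (T * T * mu ^ n) := h4
    _ ≤ N ^ 2 * (T * T * mu ^ n) := mul_le_mul_of_nonneg_right h6 (by positivity)
    _ = N ^ (2 + 2 * (K + b)) * mu ^ n := by
        rw [hT, pow_add N 2, pow_mul']
        ring
    _ ≤ ((n : ℝ) ^ 2) ^ (2 + 2 * (K + b)) * mu ^ n := by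
        apply mul_le_mul_of_nonneg_right _ hmu.le
        exact pow_le_pow_left₀ (by linarith) h7 _
    _ = (n : ℝ) ^ (2 * (2 + 2 * (K + b))) * mu ^ n := by rw [← pow_mul]

/-- comparison of `E n` with the number of walks -/
theorem E_ge (n : ℕ) {X : ℝ} (hX : 0 ≤ X) (hc : (c (n + 1) : ℝ) ≤ X * mu ^ (n + 1)) :
    1 ≤ 2 * ((n : ℝ) + 4) * X * E n := by
  have hmu := pow_pos mu_pos n
  have h1 := lower n
  have h3 := (E_pos n).le
  have h6 : mu ^ n * 1 ≤ mu ^ n * (2 * ((n : ℝ) + 4) * X * E n) := by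
    calc mu ^ n * 1 = mu ^ n := mul_one _
      _ ≤ ((n : ℝ) + 4) * E n * c (n + 1) := h1
      _ ≤ ((n : ℝ) + 4) * E n * (X * mu ^ (n + 1)) :=
          mul_le_mul_of_nonneg_left hc (by positivity)
      _ = ((n : ℝ) + 4) * E n * X * mu ^ n * mu := by rw [pow_succ]; ring
      _ ≤ ((n : ℝ) + 4) * E n * X * mu ^ n * 2 :=
          mul_le_mul_of_nonneg_left mu_le_two (by positivity)
      _ = mu ^ n * (2 * ((n : ℝ) + 4) * X * E n) := by ring
  exact le_of_mul_le_mul_left h6 hmu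

theorem lin_le {n : ℕ} (hn : 2 ≤ n) : 2 * ((n : ℝ) + 4) ≤ (n : ℝ) ^ 4 := by
  have hnr : (2 : ℝ) ≤ n := by exact_mod_cast hn
  have h1 : 4 ≤ (n : ℝ) ^ 2 := by nlinarith
  have h2 : (n : ℝ) ^ 4 = (n : ℝ) ^ 2 * (n : ℝ) ^ 2 := by ring
  rw [h2]
  nlinarith

theorem part_three_mp (hc : ∃ K : ℕ, ∀ n : ℕ, 2 ≤ n → (c n : ℝ) ≤ (n : ℝ) ^ K * mu ^ n) :
    ∃ K : ℕ, ∀ n : ℕ, 2 ≤ n → 1 ≤ (n : ℝ) ^ K * E n := by
  obtain ⟨K, hK⟩ := hc
  refine ⟨4 + 2 * K, fun n hn => ?_⟩
  have hnr : (2 : ℝ) ≤ n := by exact_mod_cast hn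
  have h1 := hK (n + 1) (by omega)
  have h2 := E_ge n (X := ((n + 1 : ℕ) : ℝ) ^ K) (by positivity) h1
  refine h2.trans (mul_le_mul_of_nonneg_right ?_ (E_pos n).le)
  rw [pow_add (n : ℝ) 4]
  apply mul_le_mul (lin_le hn) _ (by positivity) (by positivity)
  rw [pow_mul]
  apply pow_le_pow_left₀ (by positivity)
  push_cast
  nlinarith

theorem part_four : ∃ K : ℝ, ∀ n : ℕ, 2 ≤ n → Real.exp (-(K * Real.log n ^ 2)) ≤ E n := by
  obtain ⟨K, hK⟩ := Pool.Agent.Results.MP_b440f6_pr.HoneycombLogTwo.result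
  refine ⟨8 + 4 * |K|, fun n hn => ?_⟩
  have hnr : (2 : ℝ) ≤ n := by exact_mod_cast hn
  have hn0 : (0 : ℝ) < n := by linarith
  have h1 := (hK (n + 1) (by omega)).2
  have h2 : (c (n + 1) : ℝ) ≤
      Real.exp (K * Real.log ((n + 1 : ℕ) : ℝ) ^ 2) * mu ^ (n + 1) := by
    rw [mul_comm]
    exact h1
  have h3 := E_ge n (X := Real.exp (K * Real.log ((n + 1 : ℕ) : ℝ) ^ 2)) (Real.exp_pos _).le h2
  set x := Real.log n with hx
  have hx2 : 1 / 2 ≤ x := by
    have g1 : Real.log 2 ≤ x := Real.log_le_log (by norm_num) hnr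
    have g2 := Real.log_two_gt_d9
    linarith
  have h4 : Real.log ((n + 1 : ℕ) : ℝ) ≤ 2 * x := by
    have g1 : ((n + 1 : ℕ) : ℝ) ≤ (n : ℝ) ^ 2 := by
      push_cast
      nlinarith
    have g2 := Real.log_le_log (by positivity) g1
    rw [Real.log_pow] at g2
    exact_mod_cast g2
  have h5 : 0 ≤ Real.log ((n + 1 : ℕ) : ℝ) := Real.log_natCast_nonneg _
  have h6 : K * Real.log ((n + 1 : ℕ) : ℝ) ^ 2 ≤ 4 * |K| * x ^ 2 := by
    calc K * Real.log ((n + 1 : ℕ) : ℝ) ^ 2 ≤ |K| * Real.log ((n + 1 : ℕ) : ℝ) ^ 2 :=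
          mul_le_mul_of_nonneg_right (le_abs_self K) (by positivity)
      _ ≤ |K| * (2 * x) ^ 2 :=
          mul_le_mul_of_nonneg_left (pow_le_pow_left₀ h5 h4 2) (abs_nonneg K)
      _ = 4 * |K| * x ^ 2 := by ring
  have h7 : 2 * ((n : ℝ) + 4) ≤ Real.exp (4 * x) := by
    have g : Real.exp (4 * x) = (n : ℝ) ^ 4 := by
      rw [mul_comm, Real.exp_mul, hx, Real.exp_log hn0]
      exact_mod_cast Real.rpow_natCast (n : ℝ) 4
    rw [g]
    exact lin_le hn
  have h8 : 4 * x ≤ 8 * x ^ 2 := by nlinarith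
  have h9 : 2 * ((n : ℝ) + 4) * Real.exp (K * Real.log ((n + 1 : ℕ) : ℝ) ^ 2) ≤
      Real.exp ((8 + 4 * |K|) * x ^ 2) := by
    calc 2 * ((n : ℝ) + 4) * Real.exp (K * Real.log ((n + 1 : ℕ) : ℝ) ^ 2)
        ≤ Real.exp (4 * x) * Real.exp (K * Real.log ((n + 1 : ℕ) : ℝ) ^ 2) :=
          mul_le_mul_of_nonneg_right h7 (Real.exp_pos _).le
      _ = Real.exp (4 * x + K * Real.log ((n + 1 : ℕ) : ℝ) ^ 2) := (Real.exp_add _ _).symm
      _ ≤ Real.exp ((8 + 4 * |K|) * x ^ 2) := by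
          apply Real.exp_le_exp.mpr
          linarith
  have h10 : 1 ≤ Real.exp ((8 + 4 * |K|) * x ^ 2) * E n :=
    h3.trans (mul_le_mul_of_nonneg_right h9 (E_pos n).le)
  rw [Real.exp_neg]
  rw [inv_le_iff_one_le_mul₀' (Real.exp_pos _)]
  exact h10

/-- **Theorem** (honeycomb lattice, `μ = √(2+√2)`; `c n` is the number of `n`-step self-avoiding
walks, `h n` the number of those of the half-plane starting through a boundary edge, `Θ` the total
turning of the uniform one of these, `E n` the expectation of `cos (3 Θ / 8)`).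
(1) `μ^n / (n + 4) ≤ h n * E n ≤ μ^n` for all `n`, and `h n * E n / μ^n` is nonincreasing.
(2) `μ^n / ((n + 4) E n) ≤ c (n + 1)` and
`c n ≤ μ^n (∑_{a + b = n} 1 / (E a * E b) + 2 μ / E (n + 1))` for all `n`.
(3) There is `K` with `c n ≤ n^K μ^n` for all `n ≥ 2` if and only if there is `K` with
`E n ≥ n^{-K}` for all `n ≥ 2`.
(4) There is `K` with `E n ≥ exp (-K (log n)^2)` for all `n ≥ 2`. -/
theorem result :
    ((∀ n : ℕ, 0 < E n ∧ mu ^ n / ((n : ℝ) + 4) ≤ (h n : ℝ) * E n ∧ (h n : ℝ) * E n ≤ mu ^ n) ∧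
      ∀ m n : ℕ, m ≤ n → (h n : ℝ) * E n / mu ^ n ≤ (h m : ℝ) * E m / mu ^ m) ∧
    (∀ n : ℕ, mu ^ n ≤ ((n : ℝ) + 4) * E n * c (n + 1) ∧ (c n : ℝ) ≤
      mu ^ n * (∑ a ∈ Finset.range (n + 1), 1 / (E a * E (n - a)) + 2 * mu / E (n + 1))) ∧
    ((∃ K : ℕ, ∀ n : ℕ, 2 ≤ n → (c n : ℝ) ≤ (n : ℝ) ^ K * mu ^ n) ↔
      ∃ K : ℕ, ∀ n : ℕ, 2 ≤ n → 1 ≤ (n : ℝ) ^ K * E n) ∧
    ∃ K : ℝ, ∀ n : ℕ, 2 ≤ n → Real.exp (-(K * Real.log n ^ 2)) ≤ E n := by
  refine ⟨⟨fun n => ⟨E_pos n, hE_ge n, hE_le n⟩, fun m n hmn => ?_⟩,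
    fun n => ⟨lower n, upper n⟩, ⟨part_three_mp, part_three_mpr⟩, part_four⟩
  rw [hE_div, hE_div]
  exact Y_mono hmn

end Pool.Agent.Results.MP_b440f6_pr.WindingCriterion
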